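import Pool.Agent.W732.Ud.Stm

/-!
# UD-GEO: farthest points, assembly
-/

set_option autoImplicit false

open Metric Set Filter Topology Complex
open scoped ContDiff

namespace Pool.Agent.W369.Ud.Geo
open Pool.Agent.W732.Ud Pool.Agent.W732.Cor

theorem tend_inv : Tendsto (fun n : ℕ => 1 / ((n : ℝ) + 2)) atTop (𝓝 0) := by
  have h := tendsto_one_div_add_atTop_nhds_zero_nat (𝕜 := ℝ)
  have h2 := (tendsto_add_atTop_iff_nat 1).2 h
  refine h2.congr fun n => ?_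
  push_cast
  ring_nf

theorem main : S_geo1 → S_geo1b → S_geo2 → S_geo3 → S_geo := by
  intro h1 h1b h2 h3 m e R D ρ he hR hD hDR hρ hdρ hcl hloc
  obtain ⟨b, hbs, hblow, hbr⟩ := h1 m e R D ρ he hR hD hDR hρ hdρ hcl hloc
  obtain ⟨A, A', B, l, β, hA, hSS⟩ := h1b m e R b he hR hbs hblow
  have hlow : ∀ (y : V m) (v : ℝ), (inner ℂ e y : ℂ) = 0 →
      (‖y‖ ^ 2 + v ^ 2) / (2 * R) ≤ SS A B l β y v := by
    intro y v hy
    rw [← hSS y v hy]
    exact hblow y v hy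
  have hr1 : ∀ σ : ℝ, 0 < σ → ∃ r : ℝ, 0 < r ∧ ∀ (y : V m) (w : ℂ), (inner ℂ e y : ℂ) = 0 →
        ‖y‖ < r → ‖w‖ < r → ((R : ℂ) - w) • e + y ∈ D →
          SS A B l β y w.im - σ * (‖y‖ ^ 2 + w.im ^ 2) < w.re := by
    intro σ hσ
    obtain ⟨r, hr, h⟩ := hbr σ hσ
    refine ⟨r, hr, fun y w hy hyr hwr hmem => ?_⟩
    rw [← hSS y w.im hy]
    exact (h y w hy hyr hwr).1 hmem
  have hr2 : ∀ σ : ℝ, 0 < σ → ∃ r : ℝ, 0 < r ∧ ∀ (y : V m) (w : ℂ), (inner ℂ e y : ℂ) = 0 →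
        ‖y‖ < r → ‖w‖ < r → SS A B l β y w.im + σ * (‖y‖ ^ 2 + w.im ^ 2) < w.re →
          ((R : ℂ) - w) • e + y ∈ D := by
    intro σ hσ
    obtain ⟨r, hr, h⟩ := hbr σ hσ
    refine ⟨r, hr, fun y w hy hyr hwr hmem => ?_⟩
    rw [← hSS y w.im hy] at hmem
    exact (h y w hy hyr hwr).2 hmem
  have hn : ∀ n : ℕ, 0 < 1 / ((n : ℝ) + 2) ∧ 1 / ((n : ℝ) + 2) < 1 := by
    intro n
    have h0 : (0 : ℝ) ≤ n := Nat.cast_nonneg n
    constructor
    · positivity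
    · rw [div_lt_one (by positivity)]
      linarith
  have hex : ∀ n : ℕ, ∃ ψ G : V m → V m,
        DifferentiableOn ℂ ψ (ball 0 (1 - 1 / ((n : ℝ) + 2))) ∧
        MapsTo ψ (ball 0 (1 - 1 / ((n : ℝ) + 2))) D ∧
        DifferentiableOn ℂ G D ∧ MapsTo G D (ball 0 1) ∧
        (∀ x ∈ ball (0 : V m) (1 - 1 / ((n : ℝ) + 2)), ‖ψ x - (R : ℂ) • e‖ ≤ 1 / ((n : ℝ) + 2)) ∧
        ∀ x ∈ ball (0 : V m) (1 - 1 / ((n : ℝ) + 2)),
          ‖G (ψ x) - ((inner ℂ e x : ℂ) • e +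
            (((1 - 1 / ((n : ℝ) + 2) : ℝ)) : ℂ) • (x - (inner ℂ e x : ℂ) • e))‖ ≤ 1 / ((n : ℝ) + 2) := by
    intro n
    obtain ⟨W, Y, hW, hY, hWY, hWY2⟩ := h2 m e R D A B l β he hR hDR (fun y hy => (hA y hy).1) hlow hr1
      (1 - 1 / ((n : ℝ) + 2)) (by linarith [(hn n).2]) (by linarith [(hn n).1])
    exact h3 m e R D A A' B l β he hR hA hr2 (1 - 1 / ((n : ℝ) + 2)) W Y (by linarith [(hn n).2])
      (by linarith [(hn n).1]) hW hY hWY hWY2 (1 - 1 / ((n : ℝ) + 2)) (1 / ((n : ℝ) + 2))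
      (by linarith [(hn n).1]) (hn n).1
  choose ψ G hψd hψm hGd hGm hψe hGe using hex
  have hexh : ∀ K ⊆ ball (0 : V m) 1, IsCompact K →
      ∀ᶠ n : ℕ in atTop, K ⊆ ball (0 : V m) (1 - 1 / ((n : ℝ) + 2)) := by
    intro K hK hKc
    obtain ⟨r', hr', hKr⟩ := exists_lt_subset_ball hKc.isClosed hK
    have h5 : ∀ᶠ n : ℕ in atTop, 1 / ((n : ℝ) + 2) < 1 - r' :=
      tend_inv.eventually (eventually_lt_nhds (by linarith))
    filter_upwards [h5] with n hn5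
    exact hKr.trans (ball_subset_ball (by linarith))
  have hψt : ∀ x ∈ ball (0 : V m) 1, Tendsto (fun n => ψ n x) atTop (𝓝 ((R : ℂ) • e)) := by
    intro x hx
    rw [tendsto_iff_norm_sub_tendsto_zero]
    refine squeeze_zero' (Eventually.of_forall fun n => norm_nonneg _) ?_ tend_inv
    filter_upwards [hexh {x} (by simpa using hx) isCompact_singleton] with n hn5
    exact hψe n x (hn5 rfl)
  refine ⟨fun n => ball 0 (1 - 1 / ((n : ℝ) + 2)), ψ, G,
    fun z => Complex.exp (-((R : ℂ) - innerSL ℂ e z)), ⟨hD, ⟨isOpen_ball, fun n => isOpen_ball, ?_, hexh⟩,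
    (convex_ball 0 1).isPreconnected, ⟨0, mem_ball_self one_pos⟩, hψd, hψm, hGd, hGm, ?_, ?_, ?_, ?_⟩, ?_⟩
  · intro n
    exact ball_subset_ball (by linarith [(hn n).1])
  · intro K hK hKc
    rw [Metric.tendstoUniformlyOn_iff]
    intro ε hε
    have h5 : ∀ᶠ n : ℕ in atTop, 1 / ((n : ℝ) + 2) < ε / 3 :=
      tend_inv.eventually (eventually_lt_nhds (by linarith))
    filter_upwards [h5, hexh K hK hKc] with n hn5 hnK x hx
    have hx1 : ‖x‖ < 1 := by
      have := hK hx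
      rwa [mem_ball_zero_iff] at this
    have h6 := hGe n x (hnK hx)
    have h7 : ‖(inner ℂ e x : ℂ)‖ ≤ 1 := by
      have := norm_inner_le_norm (𝕜 := ℂ) e x
      rw [he, one_mul] at this
      linarith
    have h8 : ‖x - (inner ℂ e x : ℂ) • e‖ ≤ 2 := by
      refine (norm_sub_le _ _).trans ?_
      rw [norm_smul, he, mul_one]
      linarith
    have h9 : id x - G n (ψ n x) = -(G n (ψ n x) - ((inner ℂ e x : ℂ) • e +
            (((1 - 1 / ((n : ℝ) + 2) : ℝ)) : ℂ) • (x - (inner ℂ e x : ℂ) • e))) +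
            ((1 / ((n : ℝ) + 2) : ℝ) : ℂ) • (x - (inner ℂ e x : ℂ) • e) := by
      have h10 : (((1 - 1 / ((n : ℝ) + 2) : ℝ)) : ℂ) = 1 - ((1 / ((n : ℝ) + 2) : ℝ) : ℂ) := by
        push_cast
        rfl
      rw [h10, sub_smul, one_smul]
      simp only [id]
      abel
    rw [dist_eq_norm, h9]
    refine (norm_add_le _ _).trans_lt ?_
    rw [norm_neg, norm_smul, Complex.norm_real, Real.norm_of_nonneg (hn n).1.le]
    have h11 : 1 / ((n : ℝ) + 2) * ‖x - (inner ℂ e x : ℂ) • e‖ ≤ 1 / ((n : ℝ) + 2) * 2 :=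
      mul_le_mul_of_nonneg_left h8 (hn n).1.le
    linarith
  · exact (((differentiable_const _).sub (innerSL ℂ e).differentiable).neg.cexp).differentiableOn
  · intro z hz
    rw [Complex.norm_exp, Real.exp_lt_one_iff]
    have h5 : ‖(inner ℂ e z : ℂ)‖ ≤ ‖z‖ := by
      have := norm_inner_le_norm (𝕜 := ℂ) e z
      rwa [he, one_mul] at this
    have h6 : ‖z‖ < R := by
      have := hDR hz
      rwa [mem_ball_zero_iff] at this
    have h7 : (inner ℂ e z : ℂ).re ≤ ‖(inner ℂ e z : ℂ)‖ := Complex.re_le_norm _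
    rw [Complex.neg_re, Complex.sub_re, Complex.ofReal_re, innerSL_apply_apply]
    linarith
  · intro x hx
    have hc : Continuous fun z : V m => Complex.exp (-((R : ℂ) - innerSL ℂ e z)) :=
      ((differentiable_const _).sub (innerSL ℂ e).differentiable).neg.cexp.continuous
    have h5 := (hc.tendsto ((R : ℂ) • e)).comp (hψt x hx)
    have h6 : Complex.exp (-((R : ℂ) - innerSL ℂ e ((R : ℂ) • e))) = 1 := by
      rw [innerSL_apply_apply, inner_smul_right, inner_self_eq_norm_sq_to_K, he]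
      simp
    rw [h6] at h5
    exact h5
  · intro O hO
    obtain ⟨ε, hε, hball⟩ := Metric.mem_nhds_iff.1 hO
    have h5 : ∀ᶠ n : ℕ in atTop, 1 / ((n : ℝ) + 2) < ε :=
      tend_inv.eventually (eventually_lt_nhds hε)
    filter_upwards [h5] with n hn5 x hx
    apply hball
    rw [mem_ball, dist_eq_norm]
    exact (hψe n x hx).trans_lt hn5

end Pool.Agent.W369.Ud.Geo
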